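import Pool.Agent.H12.P5.LfS

/-!
# P5: leaf points at one time

The statements `B3`, `B4`, `B5` of `Pool.P5L`.
-/

set_option autoImplicit false

namespace Pool.P5L

open Finset Real MvPolynomial
open Pool.Agent.H49.Ent Pool.Agent.H32.Dense Pool.STK Pool.STAT Pool.MIC.Frm Pool.MIC7 Pool.FRM
open Pool.P4O

theorem lv_mono {n : ℕ} {g g₀ : ℕ → ℕ} {σ W W' : ℝ} (hσ : 0 ≤ σ) (h : Lv n g g₀ σ W)
    (hW : W ≤ W') : Lv n g g₀ σ W' := by
  intro m h1 h2
  obtain ⟨h3, h4⟩ := h m h1 h2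
  refine ⟨h3.trans ?_, h4.trans ?_⟩
  · exact mul_le_mul_of_nonneg_right (mul_le_mul_of_nonneg_right hW hσ) (by positivity)
  · exact mul_le_mul_of_nonneg_right hW (by positivity)

/-- Leaf points are bounded. -/
theorem lfb_bd (n K a : ℕ) : ∃ (a' : ℕ) (c₀ : ℝ), ∀ (E t σ : ℝ) (g g₀ : ℕ → ℕ) (So : ℕ → Prop)
    (P V : ℕ → PN), 1 ≤ E → c₀ ≤ E → Fr n K a E t σ g g₀ P V → ∀ (ζ b : ℕ → ℝ),
    (∀ l, So l → |ζ l| ≤ E ^ a) → Lfb g So P V t ζ b → ∀ l, l ≤ n →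
    |nat g P b l| ≤ E ^ a' ∧ |nat g V b l| ≤ E ^ a' := by
  obtain ⟨a', c₀, h⟩ := sheet n K a
  refine ⟨a', c₀, ?_⟩
  intro E t σ g g₀ So P V hE hc hF ζ b hζ hb l hl
  rcases Nat.eq_zero_or_pos l with h0 | h0
  · rw [h0, nat_zero_t hF.hP g hb.b0, nat_zero_t hF.hV g hb.b0, abs_zero]
    exact ⟨by positivity, by positivity⟩
  · exact h E t g g So P V V hE hc hF.hP hF.hV hF.hV hF.PV (cls_self V (by positivity))
      (fun l _ _ => ⟨fun _ => le_mul_of_one_le_left (by positivity) (pw1 hE a),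
        fun _ => le_mul_of_one_le_left (by positivity) (pw1 hE a)⟩) b hb.b0
      (fun l h1 _ hS => by
        rw [hb.bs l h1 hS]
        exact hζ l hS)
      (fun l h1 _ hS => hb.bg l h1 hS) l h0 hl

/-- The affine law at one leaf point. -/
theorem core (n K a : ℕ) : ∃ (a' : ℕ) (c₀ : ℝ), ∀ (E t σ : ℝ) (g g₀ : ℕ → ℕ) (So : ℕ → Prop)
    (P V V' : ℕ → PN), 1 ≤ E → c₀ ≤ E → 1 ≤ σ → Fr n K a E t σ g g₀ P V →
    Fr n K a E t σ g g₀ P V' → ∀ u, 1 ≤ u → u ≤ n →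
    (∀ m, |lc g P V' u m| ≤ E ^ a') ∧ (¬ So u → ∀ (ζ b : ℕ → ℝ),
    (∀ l, So l → |ζ l| ≤ E ^ a) → Lfb g So P V t ζ b →
    |nat g P b u - (lc0 g P V' u + ∑ m ∈ Finset.Ico 1 u, lc g P V' u m * nat g P b m) -
      2 ^ g u * (eval b (V u) - eval b (V' u))| ≤ E ^ a' / σ) := by
  obtain ⟨a₁, c₁, h1⟩ := lfb_bd n K a
  obtain ⟨a₂, c₂, h2⟩ := aff n K (a + a₁)
  refine ⟨a₂, max c₁ c₂, ?_⟩
  intro E t σ g g₀ So P V V' hE hc hσ hF hF' u hu1 hun
  have hc1 : c₁ ≤ E := (le_max_left _ _).trans hc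
  have hc2 : c₂ ≤ E := (le_max_right _ _).trans hc
  have hW : E ^ a ≤ E ^ (a + a₁) := pw hE (by omega)
  obtain ⟨e1, -, e2⟩ := h2 E t σ g g₀ P V' hE hc2 hσ hF'.hP hF'.hV (hF'.PV.mono hW)
    (hF'.PV0.mono hW) (lv_mono (by linarith) hF'.lv hW) u hu1 hun
  refine ⟨e1, fun hSu ζ b hζ hb => ?_⟩
  have e3 := e2 b hb.b0 fun m _ hm =>
    (h1 E t σ g g₀ So P V hE hc1 hF ζ b hζ hb m (by omega)).1.trans (pw hE (by omega))
  have e4 : nat g P b u - (lc0 g P V' u + ∑ m ∈ Finset.Ico 1 u, lc g P V' u m * nat g P b m) -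
      2 ^ g u * (eval b (V u) - eval b (V' u)) = 2 ^ g u * (eval b (V' u) - eval b (P u)) -
      (lc0 g P V' u + ∑ m ∈ Finset.Ico 1 u, lc g P V' u m * nat g P b m) := by
    have e5 : nat g P b u = 2 ^ g u * (b u - eval b (P u)) := rfl
    rw [e5, hb.bg u hu1 hSu]
    ring
  rw [e4]
  exact e3

open Classical in
/-- **(B3)** -/
theorem b3 : B3 := by
  intro n K a
  obtain ⟨a₁, c₁, h1⟩ := lfb_bd n K a
  obtain ⟨a₂, c₂, h2⟩ := core n K a
  obtain ⟨a₃, c₃, h3⟩ := absorb ((n + 2 : ℝ) ^ n * (2 * (n + 1))) (n + 2) (a + a₂)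
  refine ⟨a₁ + a₃, max (max c₁ c₂) c₃, ?_⟩
  intro E t σ g g₀ So P V hE hc hσ hSo hF ζ b b₀ bk hζ hb hb₀ hbk u hu1 hun
  have hc1 : c₁ ≤ E := (le_max_left _ _).trans ((le_max_left _ _).trans hc)
  have hc2 : c₂ ≤ E := (le_max_right _ _).trans ((le_max_left _ _).trans hc)
  have hc3 : c₃ ≤ E := (le_max_right _ _).trans hc
  have hσ0 : 0 < σ := by linarith
  have hE1 := pw1 hE a
  have hE2 := pw1 hE a₂
  refine ⟨(h1 E t σ g g₀ So P V hE hc1 hF ζ b hζ hb u hun).1.trans (pw hE (by omega)), ?_⟩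
  obtain ⟨x, hx⟩ : ∃ x : ℕ → ℝ, ∀ v, x v = (nat g P b v - nat g P b₀ v) -
      ∑ k ∈ (range n).filter So, ζ k * (nat g P (bk k) v - nat g P b₀ v) := ⟨_, fun _ => rfl⟩
  have hxS : ∀ v, So v → x v = 0 := by
    intro v hv
    obtain ⟨v1, vn⟩ := hSo v hv
    rw [hx, hb.bs v v1 hv, hb₀.bs v v1 hv]
    have e1 : ∑ k ∈ (range n).filter So, ζ k * (nat g P (bk k) v - 0) = ζ v := by
      rw [Finset.sum_eq_single v]
      · rw [(hbk v hv).bs v v1 hv, if_pos rfl]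
        ring
      · intro k hk hkv
        rw [(hbk k (Finset.mem_filter.1 hk).2).bs v v1 hv, if_neg (Ne.symm hkv)]
        ring
      · intro h
        exact absurd (Finset.mem_filter.2 ⟨mem_range.2 vn, hv⟩) h
    rw [e1]
    ring
  have h0' : ∀ l, So l → |(fun _ => (0 : ℝ)) l| ≤ E ^ a := fun l _ => by
    show |(0 : ℝ)| ≤ E ^ a
    rw [abs_zero]
    positivity
  have hk' : ∀ k l, So l → |(fun l => if l = k then (1 : ℝ) else 0) l| ≤ E ^ a := fun k l _ => by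
    show |if l = k then (1 : ℝ) else 0| ≤ E ^ a
    split_ifs
    · rw [abs_one]
      exact hE1
    · rw [abs_zero]
      positivity
  obtain ⟨e, he⟩ : ∃ e : ℝ, e = 2 * (n + 1) * (E ^ a * (E ^ a₂ / σ)) := ⟨_, rfl⟩
  have he0 : 0 ≤ e := by
    rw [he]
    positivity
  have hres : ∀ v, 1 ≤ v → v ≤ n → ¬ So v →
      |x v - ∑ m ∈ Finset.Ico 1 v, lc g P V v m * x m| ≤ e := by
    intro v hv1 hvn hv
    have key := fun (ζ b : ℕ → ℝ) (h : ∀ l, So l → |ζ l| ≤ E ^ a) (hb : Lfb g So P V t ζ b) =>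
      (h2 E t σ g g₀ So P V V hE hc2 hσ hF hF v hv1 hvn).2 hv ζ b h hb
    have f1 := key ζ b hζ hb
    have f2 := key _ b₀ h0' hb₀
    have f3 := fun k hk => key _ (bk k) (hk' k) (hbk k hk)
    simp only [sub_self, mul_zero, sub_zero] at f1 f2 f3
    obtain ⟨ε, hε⟩ : ∃ ε : (ℕ → ℝ) → ℝ, ∀ b, ε b = nat g P b v -
        (lc0 g P V v + ∑ m ∈ Finset.Ico 1 v, lc g P V v m * nat g P b m) := ⟨_, fun _ => rfl⟩
    rw [← hε] at f1 f2
    have f3' : ∀ k, So k → |ε (bk k)| ≤ E ^ a₂ / σ := fun k hk => by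
      rw [hε]
      exact f3 k hk
    have e1 : x v - ∑ m ∈ Finset.Ico 1 v, lc g P V v m * x m = (ε b - ε b₀) -
        ∑ k ∈ (range n).filter So, ζ k * (ε (bk k) - ε b₀) := by
      have e2 : ∑ m ∈ Finset.Ico 1 v, lc g P V v m * x m =
          (∑ m ∈ Finset.Ico 1 v, lc g P V v m * nat g P b m -
            ∑ m ∈ Finset.Ico 1 v, lc g P V v m * nat g P b₀ m) -
          ∑ k ∈ (range n).filter So, ζ k * (∑ m ∈ Finset.Ico 1 v, lc g P V v m * nat g P (bk k) m -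
            ∑ m ∈ Finset.Ico 1 v, lc g P V v m * nat g P b₀ m) := by
        rw [← Finset.sum_sub_distrib]
        have e3 : ∀ k, ζ k * (∑ m ∈ Finset.Ico 1 v, lc g P V v m * nat g P (bk k) m -
            ∑ m ∈ Finset.Ico 1 v, lc g P V v m * nat g P b₀ m) =
            ∑ m ∈ Finset.Ico 1 v, lc g P V v m *
              (ζ k * (nat g P (bk k) m - nat g P b₀ m)) := by
          intro k
          rw [← Finset.sum_sub_distrib, Finset.mul_sum]
          exact Finset.sum_congr rfl fun m _ => by ring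
        rw [Finset.sum_congr rfl fun k _ => e3 k, Finset.sum_comm, ← Finset.sum_sub_distrib]
        refine Finset.sum_congr rfl fun m _ => ?_
        rw [hx, ← Finset.mul_sum]
        ring
      rw [e2, hx, hε, hε]
      have e4 : ∑ k ∈ (range n).filter So, ζ k * (ε (bk k) - (nat g P b₀ v -
          (lc0 g P V v + ∑ m ∈ Finset.Ico 1 v, lc g P V v m * nat g P b₀ m))) =
          ∑ k ∈ (range n).filter So, ζ k * (nat g P (bk k) v - nat g P b₀ v) -
          ∑ k ∈ (range n).filter So, ζ k * (∑ m ∈ Finset.Ico 1 v, lc g P V v m * nat g P (bk k) m -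
            ∑ m ∈ Finset.Ico 1 v, lc g P V v m * nat g P b₀ m) := by
        rw [← Finset.sum_sub_distrib]
        refine Finset.sum_congr rfl fun k _ => ?_
        rw [hε]
        ring
      rw [e4]
      ring
    rw [e1]
    have q0 : 0 ≤ E ^ a₂ / σ := by positivity
    have q1 : |ε b - ε b₀| ≤ 2 * (E ^ a₂ / σ) := (abs_sub _ _).trans (by linarith)
    have q2 : |∑ k ∈ (range n).filter So, ζ k * (ε (bk k) - ε b₀)| ≤
        n * (E ^ a * (2 * (E ^ a₂ / σ))) := by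
      refine (Finset.abs_sum_le_sum_abs _ _).trans ?_
      calc ∑ k ∈ (range n).filter So, |ζ k * (ε (bk k) - ε b₀)|
          ≤ ∑ _k ∈ (range n).filter So, E ^ a * (2 * (E ^ a₂ / σ)) := by
            refine Finset.sum_le_sum fun k hk => ?_
            have hk2 := (Finset.mem_filter.1 hk).2
            rw [abs_mul]
            refine mul_le_mul (hζ k hk2) ((abs_sub _ _).trans ?_) (abs_nonneg _) (by positivity)
            linarith [f3' k hk2]
        _ = ((range n).filter So).card * (E ^ a * (2 * (E ^ a₂ / σ))) := by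
            rw [Finset.sum_const, nsmul_eq_mul]
        _ ≤ n * (E ^ a * (2 * (E ^ a₂ / σ))) := by
            refine mul_le_mul_of_nonneg_right ?_ (by positivity)
            have := Finset.card_filter_le (range n) So
            rw [card_range] at this
            exact_mod_cast this
    refine (abs_sub _ _).trans ((add_le_add q1 q2).trans ?_)
    rw [he]
    have q3 : 2 * (E ^ a₂ / σ) ≤ 2 * (E ^ a * (E ^ a₂ / σ)) :=
      mul_le_mul_of_nonneg_left (le_mul_of_one_le_left q0 hE1) (by norm_num)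
    nlinarith
  have hfin := lin hSo hE2 (fun u h4 h5 m =>
    (h2 E t σ g g₀ So P V V hE hc2 hσ hF hF u h4 h5).1 m) he0 hres
  rw [← hx]
  have hgoal : 0 ≤ E ^ (a₁ + a₃) / σ := by positivity
  by_cases hSu : So u
  · rw [hxS u hSu, abs_zero]
    exact hgoal
  have f4 := hfin u hu1 hun hSu
  have f5 : ∑ k ∈ (range n).filter So, SS n So (lc g P V) u k * x k = 0 :=
    Finset.sum_eq_zero fun k hk => by rw [hxS k (Finset.mem_filter.1 hk).2, mul_zero]
  rw [f5, sub_zero] at f4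
  refine f4.trans ?_
  rw [he]
  have f6 := h3 E hE hc3
  have f7 : (((n : ℝ) + 2) * E ^ a₂) ^ n * (2 * (n + 1) * (E ^ a * (E ^ a₂ / σ))) =
      ((n + 2 : ℝ) ^ n * (2 * (n + 1))) * ((E ^ a₂) ^ n * E ^ a * E ^ a₂) / σ := by
    rw [mul_pow]
    field_simp
  rw [f7]
  refine div_le_div_of_nonneg_right ?_ hσ0.le
  have f8 : (E ^ a₂) ^ n * E ^ a * E ^ a₂ ≤ (E ^ (a + a₂)) ^ (n + 2) := by
    rw [← pow_mul, ← pow_mul, ← pow_add, ← pow_add]
    refine pw hE ?_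
    nlinarith
  calc ((n + 2 : ℝ) ^ n * (2 * (n + 1))) * ((E ^ a₂) ^ n * E ^ a * E ^ a₂)
      ≤ ((n + 2 : ℝ) ^ n * (2 * (n + 1))) * (E ^ (a + a₂)) ^ (n + 2) :=
        mul_le_mul_of_nonneg_left f8 (by positivity)
    _ ≤ E ^ a₃ := f6
    _ ≤ _ := pw hE (by omega)

/-- **(B4)** -/
theorem b4 : B4 := by
  intro n K a
  obtain ⟨a₁, c₁, h1⟩ := lfb_bd n K a
  obtain ⟨a₂, c₂, h2⟩ := core n K a
  obtain ⟨a₃, c₃, h3⟩ := cls_box n K (a + a₁)
  refine ⟨a₂ + a₃ + 1, max (max c₁ c₂) (max c₃ 2), ?_⟩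
  intro E t σ g g₀ gR So P V V' hE hc hσ hSo hF hF' hR hlev ζ b b' hζ hb hb' u hu1 hun hSu
  have hc1 : c₁ ≤ E := (le_max_left _ _).trans ((le_max_left _ _).trans hc)
  have hc2 : c₂ ≤ E := (le_max_right _ _).trans ((le_max_left _ _).trans hc)
  have hc3 : c₃ ≤ E := (le_max_left _ _).trans ((le_max_right _ _).trans hc)
  have hc4 : 2 ≤ E := (le_max_right _ _).trans ((le_max_right _ _).trans hc)
  have hσ0 : 0 < σ := by linarith
  obtain ⟨-, f1⟩ := h2 E t σ g g₀ So P V V' hE hc2 hσ hF hF' u hu1 hun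
  obtain ⟨-, f2⟩ := h2 E t σ g g₀ So P V' V' hE hc2 hσ hF' hF' u hu1 hun
  have e1 := f1 hSu ζ b hζ hb
  have e2 := f2 hSu ζ b' hζ hb'
  rw [sub_self, mul_zero, sub_zero] at e2
  have hbR : ∀ k < u, |nat gR V b k| ≤ E ^ (a + a₁) := by
    intro k hk
    rcases Nat.eq_zero_or_pos k with h0 | h0
    · rw [h0, nat_zero_t hF.hV gR hb.b0, abs_zero]
      positivity
    by_cases hSk : So k
    · have e3 := (h1 E t σ g g₀ So P V hE hc1 hF ζ b hζ hb k (by omega)).2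
      rw [nat_eq] at e3 ⊢
      rw [abs_mul, abs_of_pos (by positivity)] at e3 ⊢
      calc (2 : ℝ) ^ gR k * |zs V b k| ≤ (E ^ a * 2 ^ g k) * |zs V b k| :=
            mul_le_mul_of_nonneg_right (hlev k hSk) (abs_nonneg _)
        _ = E ^ a * (2 ^ g k * |zs V b k|) := by ring
        _ ≤ E ^ a * E ^ a₁ := mul_le_mul_of_nonneg_left e3 (by positivity)
        _ = E ^ (a + a₁) := by rw [pow_add]
    · have e3 : nat gR V b k = 0 := by
        unfold nat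
        rw [← hb.bg k h0 hSk, sub_self, mul_zero]
      rw [e3, abs_zero]
      positivity
  have e3 := h3 E t gR V V' hE hc3 hF.hV hF'.hV (hR.mono (pw hE (by omega))) u hu1 hun b hbR
  have pg : (0 : ℝ) < 2 ^ g u := by positivity
  have e4 : |2 ^ g u * (eval b (V u) - eval b (V' u))| ≤ E ^ a₃ * (2 ^ g u / 2 ^ gR u) := by
    rw [abs_mul, abs_of_pos pg]
    calc 2 ^ g u * |eval b (V u) - eval b (V' u)| ≤ 2 ^ g u * (E ^ a₃ / 2 ^ gR u) :=
          mul_le_mul_of_nonneg_left e3 pg.le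
      _ = _ := by ring
  have e5 : (nat g P b u - nat g P b' u) -
      ∑ m ∈ Finset.Ico 1 u, lc g P V' u m * (nat g P b m - nat g P b' m) =
      (nat g P b u - (lc0 g P V' u + ∑ m ∈ Finset.Ico 1 u, lc g P V' u m * nat g P b m) -
        2 ^ g u * (eval b (V u) - eval b (V' u))) -
      (nat g P b' u - (lc0 g P V' u + ∑ m ∈ Finset.Ico 1 u, lc g P V' u m * nat g P b' m)) +
      2 ^ g u * (eval b (V u) - eval b (V' u)) := by
    have e6 : ∑ m ∈ Finset.Ico 1 u, lc g P V' u m * (nat g P b m - nat g P b' m) =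
        ∑ m ∈ Finset.Ico 1 u, lc g P V' u m * nat g P b m -
        ∑ m ∈ Finset.Ico 1 u, lc g P V' u m * nat g P b' m := by
      rw [← Finset.sum_sub_distrib]
      exact Finset.sum_congr rfl fun m _ => by ring
    rw [e6]
    ring
  rw [e5]
  have q1 : (0 : ℝ) < 2 ^ g u / 2 ^ gR u := by positivity
  have q2 : E ^ a₃ ≤ E ^ (a₂ + a₃ + 1) := pw hE (by omega)
  have q3 : 2 * E ^ a₂ ≤ E ^ (a₂ + a₃ + 1) := by
    have q4 : E ^ (a₂ + 1) ≤ E ^ (a₂ + a₃ + 1) := pw hE (by omega)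
    rw [pow_succ] at q4
    have q5 : 0 < E ^ a₂ := by positivity
    nlinarith
  calc |_ - _ + _| ≤ |_ - _| + |_| := abs_add_le _ _
    _ ≤ (E ^ a₂ / σ + E ^ a₂ / σ) + E ^ a₃ * (2 ^ g u / 2 ^ gR u) :=
        add_le_add ((abs_sub _ _).trans (add_le_add e1 e2)) e4
    _ = 2 * E ^ a₂ * (1 / σ) + E ^ a₃ * (2 ^ g u / 2 ^ gR u) := by ring
    _ ≤ E ^ (a₂ + a₃ + 1) * (1 / σ) + E ^ (a₂ + a₃ + 1) * (2 ^ g u / 2 ^ gR u) :=
        add_le_add (mul_le_mul_of_nonneg_right q3 (by positivity))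
          (mul_le_mul_of_nonneg_right q2 q1.le)
    _ = _ := by ring

/-- Products of small numbers. -/
theorem prod_bd {α : ℕ →₀ ℕ} {x : ℕ → ℝ} {W : ℝ} {k d : ℕ} (hk : k ∈ α.support)
    (hx : ∀ i ∈ α.support, 0 ≤ x i ∧ x i ≤ W) (hW : 1 ≤ W) (hd : dgr α ≤ d) :
    ∏ i ∈ α.support, x i ^ α i ≤ x k * W ^ d := by
  classical
  have hk0 : α k ≠ 0 := Finsupp.mem_support_iff.1 hk
  obtain ⟨q, hq⟩ : ∃ q, α k = q + 1 := Nat.exists_eq_succ_of_ne_zero hk0
  rw [← Finset.mul_prod_erase α.support (fun i => x i ^ α i) hk, hq, pow_succ', mul_assoc]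
  refine mul_le_mul_of_nonneg_left ?_ (hx k hk).1
  have h1 : ∏ i ∈ α.support.erase k, x i ^ α i ≤ ∏ i ∈ α.support.erase k, W ^ α i :=
    Finset.prod_le_prod (fun i hi => pow_nonneg (hx i (Finset.mem_of_mem_erase hi)).1 _)
      fun i hi => pow_le_pow_left₀ (hx i (Finset.mem_of_mem_erase hi)).1
        (hx i (Finset.mem_of_mem_erase hi)).2 _
  have h2 : x k ^ q ≤ W ^ q := pow_le_pow_left₀ (hx k hk).1 (hx k hk).2 q
  have h3 : q + ∑ i ∈ α.support.erase k, α i ≤ d := by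
    have h4 := Finset.add_sum_erase α.support (fun m => α m) hk
    unfold dgr at hd
    omega
  calc x k ^ q * ∏ i ∈ α.support.erase k, x i ^ α i
      ≤ W ^ q * ∏ i ∈ α.support.erase k, W ^ α i :=
        mul_le_mul h2 h1 (Finset.prod_nonneg fun i hi =>
          pow_nonneg (hx i (Finset.mem_of_mem_erase hi)).1 _) (by positivity)
    _ = W ^ (q + ∑ i ∈ α.support.erase k, α i) := by
        rw [Finset.prod_pow_eq_pow_sum, pow_add]
    _ ≤ W ^ d := pow_le_pow_right₀ hW h3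

/-- The values without the constant term. -/
theorem ev_bd {u K : ℕ} {F : PN} (hv : F.vars ⊆ range u) (hd : F.totalDegree ≤ K) {z : ℕ → ℝ}
    {S : ℝ} (hS : 0 ≤ S)
    (h : ∀ α ∈ F.support, α ≠ 0 → |coeff α F| * ∏ i ∈ α.support, |z i| ^ α i ≤ S) :
    |eval z F - coeff 0 F| ≤ (exs u K).card * S := by
  classical
  have e1 : eval z F - coeff 0 F =
      ∑ α ∈ F.support.erase 0, coeff α F * ∏ i ∈ α.support, z i ^ α i := by
    rw [eval_eq]
    by_cases h0 : (0 : ℕ →₀ ℕ) ∈ F.support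
    · rw [← Finset.add_sum_erase F.support _ h0]
      simp
    · rw [Finset.erase_eq_of_notMem h0, notMem_support_iff.1 h0, sub_zero]
  rw [e1]
  refine (Finset.abs_sum_le_sum_abs _ _).trans ?_
  have e2 : ∀ α ∈ F.support.erase 0, |coeff α F * ∏ i ∈ α.support, z i ^ α i| ≤ S := by
    intro α hα
    rw [abs_mul, Finset.abs_prod]
    have e3 : ∏ i ∈ α.support, |z i ^ α i| = ∏ i ∈ α.support, |z i| ^ α i :=
      Finset.prod_congr rfl fun i _ => abs_pow _ _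
    rw [e3]
    exact h α (Finset.mem_of_mem_erase hα) (Finset.ne_of_mem_erase hα)
  calc ∑ α ∈ F.support.erase 0, |coeff α F * ∏ i ∈ α.support, z i ^ α i|
      ≤ ∑ _α ∈ F.support.erase 0, S := Finset.sum_le_sum e2
    _ = (F.support.erase 0).card * S := by rw [Finset.sum_const, nsmul_eq_mul]
    _ ≤ (exs u K).card * S := by
        refine mul_le_mul_of_nonneg_right ?_ hS
        exact_mod_cast Finset.card_le_card ((Finset.erase_subset _ _).trans (supp_exs hv hd))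

/-- The difference of the sheets at a leaf point is nearly constant. -/
theorem dl_bd (n K a : ℕ) : ∃ (a' : ℕ) (c₀ : ℝ), ∀ (E t σ : ℝ) (g g₀ gS : ℕ → ℕ)
    (So : ℕ → Prop) (P V V' : ℕ → PN), 1 ≤ E → c₀ ≤ E → Fr n K a E t σ g g₀ P V →
    Fr n K a E t σ g g₀ P V' → Cls n gS (E ^ a) V V' →
    (∀ k, So k → (2 : ℝ) ^ gS k ≤ E ^ a * 2 ^ g k) → ∀ (ζ b : ℕ → ℝ),
    (∀ l, So l → |ζ l| ≤ E ^ a) → Lfb g So P V t ζ b → ∀ u, 1 ≤ u → u ≤ n → ∀ θ : ℝ, 0 ≤ θ →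
    (∀ k, So k → (2 : ℝ) ^ g u / 2 ^ gS u * (2 ^ gS k / 2 ^ g k) ≤ θ) →
    |2 ^ g u * (eval b (V u) - eval b (V' u)) + 2 ^ g u * coeff 0 (chr V (V' u - V u))| ≤
      E ^ a' * θ := by
  obtain ⟨a₁, c₁, h1⟩ := cls_coef n K a
  obtain ⟨a₂, c₂, h2⟩ := lfb_bd n K a
  obtain ⟨K₂, hK₂⟩ : ∃ K₂ : ℕ, K₂ = K * (K + 1) ^ n + 1 := ⟨_, rfl⟩
  obtain ⟨Q, hQ⟩ : ∃ Q : ℕ, Q = ∑ u ∈ range (n + 1), (exs u K₂).card := ⟨_, rfl⟩
  obtain ⟨d, hd⟩ : ∃ d : ℕ, d = n * K₂ := ⟨_, rfl⟩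
  refine ⟨1 + (a₁ + a₂ + (a + a₂) * d), max (max c₁ c₂) Q, ?_⟩
  intro E t σ g g₀ gS So P V V' hE hc hF hF' hcl hlev ζ b hζ hb u hu1 hun θ hθ hθk
  have hc1 : c₁ ≤ E := (le_max_left _ _).trans ((le_max_left _ _).trans hc)
  have hc2 : c₂ ≤ E := (le_max_right _ _).trans ((le_max_left _ _).trans hc)
  have hcQ : (Q : ℝ) ≤ E := (le_max_right _ _).trans hc
  have hE0 : 0 < E := by linarith
  obtain ⟨D, hD⟩ : ∃ D : PN, D = chr V (V' u - V u) := ⟨_, rfl⟩
  have vB : (V' u - V u).vars ⊆ range u := AdxRow.vars_sub_le (hF'.hV.tri u) (hF.hV.tri u)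
  have vD : D.vars ⊆ range u := by
    rw [hD]
    exact chr_vars hF.hV.tri vB
  have dD : D.totalDegree ≤ K₂ := by
    rw [hD]
    refine (chr_deg (m := u) hF.hV.tri (fun i _ => hF.hV.deg i) vB
      ((totalDegree_sub _ _).trans (max_le (hF'.hV.deg u) (hF.hV.deg u)))).trans ?_
    rw [hK₂]
    have := Nat.mul_le_mul_left K (Nat.pow_le_pow_right (show 0 < K + 1 by omega) hun)
    omega
  have nD : 0 ∉ D.vars := by
    rw [hD]
    exact chr_nv hF.hV (sub_nv (hF'.hV.nv u) (hF.hV.nv u))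
  have cD : ∀ α, |coeff α D| ≤ E ^ a₁ * (2 ^ Finsupp.weight gS α / 2 ^ gS u) := fun α => by
    rw [hD]
    exact h1 E t gS V V' hE hc1 hF.hV hF'.hV hcl u hu1 hun α
  obtain ⟨z, hz⟩ : ∃ z : ℕ → ℝ, z = zs V b := ⟨_, rfl⟩
  have hz0 : ∀ l, 1 ≤ l → ¬ So l → z l = 0 := by
    intro l hl1 hl
    rw [hz]
    unfold zs
    rw [← hb.bg l hl1 hl, sub_self]
  have hzk : ∀ l, l ≤ n → |z l| ≤ E ^ a₂ / 2 ^ g l := by
    intro l hl
    have e3 := (h2 E t σ g g₀ So P V hE hc2 hF ζ b hζ hb l hl).2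
    rw [nat_eq, abs_mul, abs_of_pos (by positivity)] at e3
    rw [hz, le_div_iff₀ (by positivity), mul_comm]
    exact e3
  have pg : (0 : ℝ) < 2 ^ g u := by positivity
  have hW : 1 ≤ E ^ (a + a₂) := pw1 hE _
  have hterm : ∀ α ∈ D.support, α ≠ 0 → |coeff α D| * ∏ i ∈ α.support, |z i| ^ α i ≤
      E ^ (a₁ + a₂ + (a + a₂) * d) * θ / 2 ^ g u := by
    intro α hα hα0
    by_cases hall : ∀ i ∈ α.support, So i
    swap
    · push Not at hall
      obtain ⟨i, hi, hiS⟩ := hall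
      by_cases hi0 : i = 0
      · have e4 : coeff α D = 0 := by
          refine coeff_nv nD ?_
          rw [hi0] at hi
          exact Finsupp.mem_support_iff.1 hi
        rw [e4, abs_zero, zero_mul]
        positivity
      · rw [Finset.prod_eq_zero hi (by
          rw [hz0 i (by omega) hiS, abs_zero, zero_pow (Finsupp.mem_support_iff.1 hi)]),
          mul_zero]
        positivity
    have hlt : ∀ i ∈ α.support, i < u := fun i hi =>
      mem_range.1 (vD ((mem_vars_iff_mem_support i).2 ⟨α, hα, hi⟩))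
    have hdg : dgr α ≤ d := by
      rw [hd]
      unfold dgr
      have h7 : α.support ⊆ range u := fun m hm => mem_range.2 (hlt m hm)
      calc ∑ m ∈ α.support, α m ≤ ∑ _m ∈ α.support, K₂ := Finset.sum_le_sum fun m hm =>
            (monomial_le_degreeOf m hα).trans ((degreeOf_le_totalDegree D m).trans dD)
        _ = α.support.card * K₂ := by rw [Finset.sum_const, smul_eq_mul]
        _ ≤ n * K₂ := by
            refine Nat.mul_le_mul_right _ ?_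
            refine (Finset.card_le_card h7).trans ?_
            rw [card_range]
            exact hun
    obtain ⟨k, hk⟩ : ∃ k, k ∈ α.support := by
      by_contra hne
      push Not at hne
      exact hα0 (Finsupp.support_eq_empty.1 (Finset.eq_empty_iff_forall_notMem.2 hne))
    obtain ⟨x, hx⟩ : ∃ x : ℕ → ℝ, ∀ i, x i = 2 ^ gS i / 2 ^ g i * E ^ a₂ := ⟨_, fun _ => rfl⟩
    have hxb : ∀ i ∈ α.support, 0 ≤ x i ∧ x i ≤ E ^ (a + a₂) := by
      intro i hi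
      rw [hx]
      refine ⟨by positivity, ?_⟩
      rw [pow_add]
      refine mul_le_mul_of_nonneg_right ?_ (by positivity)
      rw [div_le_iff₀ (by positivity)]
      exact hlev i (hall i hi)
    have e5 := prod_bd hk hxb hW hdg
    have e6 : (2 : ℝ) ^ Finsupp.weight gS α * ∏ i ∈ α.support, |z i| ^ α i ≤
        ∏ i ∈ α.support, x i ^ α i := by
      rw [pow_weight, ← Finset.prod_mul_distrib]
      refine Finset.prod_le_prod (fun _ _ => by positivity) fun i hi => ?_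
      rw [← mul_pow, hx]
      refine pow_le_pow_left₀ (by positivity) ?_ _
      calc (2 : ℝ) ^ gS i * |z i| ≤ 2 ^ gS i * (E ^ a₂ / 2 ^ g i) :=
            mul_le_mul_of_nonneg_left (hzk i (by have := hlt i hi; omega)) (by positivity)
        _ = _ := by ring
    have e7 := hθk k (hall k hk)
    have pS : (0 : ℝ) < 2 ^ gS u := by positivity
    rw [le_div_iff₀ pg]
    calc |coeff α D| * (∏ i ∈ α.support, |z i| ^ α i) * 2 ^ g u
        ≤ (E ^ a₁ * (2 ^ Finsupp.weight gS α / 2 ^ gS u)) * (∏ i ∈ α.support, |z i| ^ α i) *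
          2 ^ g u := by
          refine mul_le_mul_of_nonneg_right (mul_le_mul_of_nonneg_right (cD α) ?_) pg.le
          exact Finset.prod_nonneg fun _ _ => by positivity
      _ = E ^ a₁ * (2 ^ Finsupp.weight gS α * ∏ i ∈ α.support, |z i| ^ α i) *
          (2 ^ g u / 2 ^ gS u) := by ring
      _ ≤ E ^ a₁ * (x k * (E ^ (a + a₂)) ^ d) * (2 ^ g u / 2 ^ gS u) := by
          refine mul_le_mul_of_nonneg_right (mul_le_mul_of_nonneg_left (e6.trans e5)
            (by positivity)) (by positivity)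
      _ = E ^ a₁ * E ^ a₂ * (E ^ (a + a₂)) ^ d * (2 ^ g u / 2 ^ gS u * (2 ^ gS k / 2 ^ g k)) := by
          rw [hx]
          ring
      _ ≤ E ^ a₁ * E ^ a₂ * (E ^ (a + a₂)) ^ d * θ :=
          mul_le_mul_of_nonneg_left e7 (by positivity)
      _ = E ^ (a₁ + a₂ + (a + a₂) * d) * θ := by
          rw [pow_add E (a₁ + a₂) ((a + a₂) * d), pow_add E a₁ a₂, pow_mul]
  have e8 := ev_bd vD dD (z := z) (S := E ^ (a₁ + a₂ + (a + a₂) * d) * θ / 2 ^ g u)
    (by positivity) hterm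
  have e9 : eval z D = eval b (V' u) - eval b (V u) := by
    rw [hz, hD, chr_eval hF.hV.tri, map_sub]
  rw [e9] at e8
  have e10 : 2 ^ g u * (eval b (V u) - eval b (V' u)) + 2 ^ g u * coeff 0 (chr V (V' u - V u)) =
      -(2 ^ g u * (eval b (V' u) - eval b (V u) - coeff 0 D)) := by
    rw [hD]
    ring
  rw [e10, abs_neg, abs_mul, abs_of_pos pg]
  have hcard : ((exs u K₂).card : ℝ) ≤ E := by
    refine le_trans ?_ hcQ
    rw [hQ]
    exact_mod_cast Finset.single_le_sum (f := fun u => (exs u K₂).card)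
      (fun _ _ => Nat.zero_le _) (mem_range.2 (by omega))
  calc 2 ^ g u * |eval b (V' u) - eval b (V u) - coeff 0 D|
      ≤ 2 ^ g u * ((exs u K₂).card * (E ^ (a₁ + a₂ + (a + a₂) * d) * θ / 2 ^ g u)) :=
        mul_le_mul_of_nonneg_left e8 pg.le
    _ = (exs u K₂).card * (E ^ (a₁ + a₂ + (a + a₂) * d) * θ) := by field_simp
    _ ≤ E * (E ^ (a₁ + a₂ + (a + a₂) * d) * θ) :=
        mul_le_mul_of_nonneg_right hcard (by positivity)
    _ = _ := by
        rw [pow_add E 1 (a₁ + a₂ + (a + a₂) * d), pow_one]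
        ring

/-- **(B5)** -/
theorem b5 : B5 := by
  intro n K a
  obtain ⟨a₂, c₂, h2⟩ := core n K a
  obtain ⟨a₃, c₃, h3⟩ := dl_bd n K a
  refine ⟨a₂ + a₃ + 2, max (max c₂ c₃) 2, ?_⟩
  intro E t σ g g₀ gS So P V V' hE hc hσ hSo hF hF' hcl hlev ζ ζ₀ b b₀ b' b₀' hζ hb hb₀ hb' hb₀'
    u hu1 hun hSu θ hθ hθk
  have hc2 : c₂ ≤ E := (le_max_left _ _).trans ((le_max_left _ _).trans hc)
  have hc3 : c₃ ≤ E := (le_max_right _ _).trans ((le_max_left _ _).trans hc)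
  have hc4 : 2 ≤ E := (le_max_right _ _).trans hc
  have hσ0 : 0 < σ := by linarith
  have hζ1 : ∀ l, So l → |ζ l| ≤ E ^ a := fun l hl => (hζ l hl).1
  have hζ2 : ∀ l, So l → |ζ₀ l| ≤ E ^ a := fun l hl => (hζ l hl).2
  obtain ⟨-, f1⟩ := h2 E t σ g g₀ So P V V' hE hc2 hσ hF hF' u hu1 hun
  obtain ⟨-, f2⟩ := h2 E t σ g g₀ So P V' V' hE hc2 hσ hF' hF' u hu1 hun
  have e1 := f1 hSu ζ b hζ1 hb
  have e2 := f1 hSu ζ₀ b₀ hζ2 hb₀
  have e3 := f2 hSu ζ b' hζ1 hb'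
  have e4 := f2 hSu ζ₀ b₀' hζ2 hb₀'
  rw [sub_self, mul_zero, sub_zero] at e3 e4
  have d1 := h3 E t σ g g₀ gS So P V V' hE hc3 hF hF' hcl hlev ζ b hζ1 hb u hu1 hun θ hθ hθk
  have d2 := h3 E t σ g g₀ gS So P V V' hE hc3 hF hF' hcl hlev ζ₀ b₀ hζ2 hb₀ u hu1 hun θ hθ hθk
  obtain ⟨q, hq⟩ : ∃ q : ℝ, q = E ^ a₂ / σ := ⟨_, rfl⟩
  obtain ⟨p, hp⟩ : ∃ p : ℝ, p = E ^ a₃ * θ := ⟨_, rfl⟩
  rw [← hq] at e1 e2 e3 e4
  rw [← hp] at d1 d2
  have e5 : ∑ m ∈ Finset.Ico 1 u, lc g P V' u m *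
      ((nat g P b m - nat g P b₀ m) - (nat g P b' m - nat g P b₀' m)) =
      (∑ m ∈ Finset.Ico 1 u, lc g P V' u m * nat g P b m -
        ∑ m ∈ Finset.Ico 1 u, lc g P V' u m * nat g P b₀ m) -
      (∑ m ∈ Finset.Ico 1 u, lc g P V' u m * nat g P b' m -
        ∑ m ∈ Finset.Ico 1 u, lc g P V' u m * nat g P b₀' m) := by
    rw [← Finset.sum_sub_distrib, ← Finset.sum_sub_distrib, ← Finset.sum_sub_distrib]
    exact Finset.sum_congr rfl fun m _ => by ring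
  rw [e5]
  have q1 : q ≤ E ^ (a₂ + a₃) * (1 / σ) := by
    rw [hq, div_eq_mul_one_div]
    exact mul_le_mul_of_nonneg_right (pw hE (by omega)) (by positivity)
  have q2 : p ≤ E ^ (a₂ + a₃) * θ := by
    rw [hp]
    exact mul_le_mul_of_nonneg_right (pw hE (by omega)) hθ
  have q3 : 4 * E ^ (a₂ + a₃) ≤ E ^ (a₂ + a₃ + 2) := by
    rw [pow_add E (a₂ + a₃) 2]
    have q4 : 0 < E ^ (a₂ + a₃) := by positivity
    have q8 : (4 : ℝ) ≤ E ^ 2 := by nlinarith
    linarith [mul_le_mul_of_nonneg_left q8 q4.le]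
  have q5 : 4 * q + 2 * p ≤ E ^ (a₂ + a₃ + 2) * (θ + 1 / σ) := by
    have q6 : 0 ≤ 1 / σ := by positivity
    have q7 : 0 < E ^ (a₂ + a₃) := by positivity
    calc 4 * q + 2 * p ≤ 4 * (E ^ (a₂ + a₃) * (1 / σ)) + 4 * (E ^ (a₂ + a₃) * θ) := by
          have : 0 ≤ E ^ (a₂ + a₃) * θ := by positivity
          linarith
      _ = 4 * E ^ (a₂ + a₃) * (θ + 1 / σ) := by ring
      _ ≤ E ^ (a₂ + a₃ + 2) * (θ + 1 / σ) :=
          mul_le_mul_of_nonneg_right q3 (by linarith)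
  refine le_trans ?_ q5
  rw [abs_le] at e1 e2 e3 e4 d1 d2 ⊢
  constructor <;> linarith [e1.1, e1.2, e2.1, e2.2, e3.1, e3.2, e4.1, e4.2, d1.1, d1.2, d2.1, d2.2]

end Pool.P5L
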