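import Pool.Agent.H12.P5.LfT
import Pool.Agent.H98.P5.Mk

/-!
# P5: the closed leaves, the slopes
-/

set_option autoImplicit false

namespace Pool.P5L

open Finset Real MvPolynomial
open Pool.Agent.H49.Ent Pool.Agent.H32.Dense Pool.STK Pool.STAT Pool.MIC.Frm Pool.MIC7 Pool.FRM
open Pool.GSD Pool.P4O
open Pool.P4 (FrP bb)
open Pool.P5 (Gam3 Stp Plc sl gr sl0 sl1 SheetA nn)

/-- **The close systems of a place, for a set of coordinates.** -/
theorem cel_mk (n K K' : ℕ) (C₁ C : ℝ) (hC₁ : 1 ≤ C₁) (hC : 0 ≤ C) : ∃ (a : ℕ) (c₀ : ℝ),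
    ∀ (lam gam : ℕ → ℝ) (y r r2 r' r'' aa M J a₀ w₀ z i j : ℕ) (D : NDat2) (q : D.Ω → ℝ) (κ : ℝ)
      (P V : ℕ → PN) (ω : D.Ω) (Sl : ℕ → Prop) (i₁ : ℕ), (∀ l, 1 ≤ l → l ≤ n → lam l = 1) →
      c₀ ≤ exp z → Plc n gam y r r2 r' r'' aa M i j →
      D.Ok2 n K J a₀ w₀ z M lam gam κ C₁ q → 0 < q ω → OwF D n K' M z C ω V →
      FrP D n K' z i j r C P ω → (∀ l, Sl l → 1 ≤ l ∧ l < n) → i₁ ≤ i →
      (∀ l, Sl l → (i₁ : ℝ) + gam l * r ≤ i) →
      (∀ l, 1 ≤ l → l ≤ n → ¬ Sl l → (i : ℝ) + y ≤ i₁ + gam l * r) →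
      (∀ u k, 1 ≤ u → u ≤ n → ¬ Sl u → Sl k → gam k * r + y ≤ gam u * r) →
      Cel n (max K K') a (exp z) (D.X ω 0) (2 ^ (i * z)) (2 ^ (y * z)) (D.g i j) (D.g 0 j)
        (D.g i₁ (j + r)) (D.g (i - r'') (j + r)) Sl (fz (D.X ω 0) P)
        (fz (D.X ω 0) V) (fr D (i₁, j + r) ω) (fr D (i - r'', j + r) ω) (D.X ω) := by
  obtain ⟨KK, hKK⟩ : ∃ KK : ℕ, KK = max K K' := ⟨_, rfl⟩
  have hK1 : K ≤ KK := by rw [hKK]; exact le_max_left _ _
  have hK2 : K' ≤ KK := by rw [hKK]; exact le_max_right _ _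
  obtain ⟨c, hc⟩ := exists_nat_ge C
  obtain ⟨c4, hc4⟩ := exists_nat_ge (4 * C₁)
  obtain ⟨aG, cG, hG⟩ := sg_cell n K K' C₁ C hC₁ hC
  obtain ⟨aV, cV, hVF⟩ := vf_cell n K K' C
  obtain ⟨aP, cP, h1⟩ := cls_P n KK c
  obtain ⟨aS, cS, h3⟩ := cls_sym n KK aP
  refine ⟨aG + aV + c4 + aS + 1, max (max cG cV) (max (max cP cS) 2), ?_⟩
  intro lam gam y r r2 r' r'' aa M J a₀ w₀ z i j D q κ P V ω Sl i₁ hlam hc₀ hpl hO hω hV hP hSl
    hi₁ hl1 hl2 hl3
  obtain ⟨hcA, hcB⟩ := max_le_iff.1 hc₀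
  obtain ⟨hcG, hcV⟩ := max_le_iff.1 hcA
  obtain ⟨hcPS, hc2⟩ := max_le_iff.1 hcB
  obtain ⟨hcP, hcS⟩ := max_le_iff.1 hcPS
  have hE : 1 ≤ exp (z : ℝ) := Real.one_le_exp (Nat.cast_nonneg z)
  have i1 := hpl.i1
  have i2 := hpl.i2
  have j1 := hpl.j1
  have j2 := hpl.j2
  have a1 := hpl.a1
  have s6 := hpl.stp.ya
  have sg := hG lam gam J a₀ w₀ z M i j D q κ r P V ω hlam hcG (by omega) (by omega) hO hV hP
  have f0 := sg.fr 0 (by rw [abs_zero]; positivity)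
  rw [add_zero] at f0
  have vf : ∀ i' < M, ∀ j' < M, Cls n (D.g i' j') (exp z ^ aV) (fz (D.X ω 0) V)
      (fr D (i', j') ω) := fun i' hi' j' hj' =>
    hVF lam gam C₁ J a₀ w₀ z M i' j' D q κ V ω hcV hi' hj' hω hO hV
  rw [← hKK] at f0 ⊢
  have syR : ∀ i' j', Sy KK (D.X ω 0) (fr D (i', j') ω) := fun i' j' =>
    sy_fz (hO.G_tri i' j' _) (fun l => (hO.G_deg i' j' _ l).trans hK1) _
  have syF : ∀ i' j', Sy KK (D.X ω 0) (fz (D.X ω 0) (D.Φ i' j' ω)) := fun i' j' =>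
    sy_fz (hO.P_tri i' j' _) (fun l => (hO.P_deg i' j' _ l).trans hK1) _
  have m : ∀ {b : ℕ}, b ≤ aG + aV + c4 + aS + 1 → exp (z : ℝ) ^ b ≤
      exp z ^ (aG + aV + c4 + aS + 1) := fun h => pw hE h
  have hPF : Cls n (D.g i j) (exp z ^ aP) (fz (D.X ω 0) P) (fz (D.X ω 0) (D.Φ i j ω)) :=
    h1 D K J a₀ w₀ z M lam gam κ C₁ C q ω P i j hK1 hcP hc hC hO hω (by omega) (by omega)
      hP.tri (fun l => (hP.deg l).trans hK2) (fun l hl => (hP.near i le_rfl l hl).1)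
  have hFP : Cls n (D.g i j) (exp z ^ aS) (fz (D.X ω 0) (D.Φ i j ω)) (fz (D.X ω 0) P) :=
    h3 _ _ _ _ _ hE hcS f0.hP (syF i j) hPF
  have jr : ((j + r : ℕ) : ℝ) = (j : ℝ) + r := by push_cast; ring
  refine ⟨f0.hP, f0.hV, syR _ _, syR _ _, f0.PV.mono (m (by omega)), f0.PV0.mono (m (by omega)),
    (vf _ (by omega) _ (by omega)).mono (m (by omega)),
    (vf _ (by omega) _ (by omega)).mono (m (by omega)),
    f0.lv.mono (by positivity) (m (by omega)), one_le_pow₀ (by norm_num),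
    pow_le_pow_right₀ (by norm_num) (Nat.mul_le_mul_right _ (by omega)),
    fun l h7 h8 h9 => ?_, fun l h7 h8 h9 => ?_, fun u k h7 h8 h9 h10 h11 h12 => ?_, rfl,
    fun l hl1 hln => ?_, fun l hl1 hln => ?_, hSl⟩
  · have e1 := lv_p (s := 0) (C₁ := C₁) (by linarith) hc4 hlam hO (i₁ := i₁) (j₁ := j + r)
      (i₂ := i) (j₂ := j) (by omega) (by omega) (by omega) (by omega) h7 h8 (by
        have := hl1 l h9
        rw [jr, Nat.cast_zero]
        linarith)
    rw [zero_mul, pow_zero, one_mul] at e1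
    exact e1.trans (mul_le_mul_of_nonneg_right (m (by omega)) (by positivity))
  · have e1 := lv_p (s := y) (C₁ := C₁) (by linarith) hc4 hlam hO (i₁ := i) (j₁ := j)
      (i₂ := i₁) (j₂ := j + r) (by omega) (by omega) (by omega) (by omega) h7 h8 (by
        have := hl2 l h7 h8 h9
        rw [jr]
        linarith)
    exact e1.trans (mul_le_mul_of_nonneg_right (m (by omega)) (by positivity))
  · have e1 := lv_q (s := y) (C₁ := C₁) (by linarith) hc4 hlam hO (i₁ := i) (j₁ := j)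
      (i₂ := i - r'') (j₂ := j + r) (by omega) (by omega) (by omega) (by omega) h7 h8 h10 h11 (by
        have := hl3 u k h7 h8 h9 h12
        rw [jr]
        linarith)
    exact e1.trans (div_le_div_of_nonneg_right (m (by omega)) (by positivity))
  · -- the own point over the closed frame
    have hbx : ∀ k < l, |nat (D.g i j) (fz (D.X ω 0) (D.Φ i j ω)) (D.X ω) k| ≤ 1 := by
      intro k hk
      rcases Nat.eq_zero_or_pos k with h7 | h7
      · rw [h7, nat_fz_zero, sub_self, mul_zero, abs_zero]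
        exact zero_le_one
      · rw [nat_fz' _ _ rfl h7]
        have h8 := hO.hgt i (by omega) j (by omega) ω hω k (by omega)
        unfold NDat2.rh at h8
        unfold nat
        rw [abs_mul, abs_of_pos (by positivity)]
        rwa [le_div_iff₀ (by positivity), mul_comm] at h8
    have e1 := hFP l hl1 hln (D.X ω) hbx
    have e2 := hO.hgt i (by omega) j (by omega) ω hω l hln
    unfold NDat2.rh at e2
    rw [← eval_fz' (D.Φ i j ω) rfl hl1] at e2
    have pg : (0 : ℝ) < 2 ^ D.g i j l := by positivity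
    unfold nat
    rw [abs_mul, abs_of_pos pg]
    have e3 : D.X ω l - eval (D.X ω) (fz (D.X ω 0) P l) =
        (D.X ω l - eval (D.X ω) (fz (D.X ω 0) (D.Φ i j ω) l)) +
        (eval (D.X ω) (fz (D.X ω 0) (D.Φ i j ω) l) - eval (D.X ω) (fz (D.X ω 0) P l)) := by ring
    have e4 := (abs_add_le _ _).trans (add_le_add e2 e1)
    rw [← e3, ← add_div, le_div_iff₀ pg] at e4
    have e5 : (1 : ℝ) ≤ exp z ^ aS := pw1 hE aS
    calc 2 ^ D.g i j l * |D.X ω l - eval (D.X ω) (fz (D.X ω 0) P l)|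
        ≤ 1 + exp z ^ aS := by linarith
      _ ≤ exp z ^ aS * exp z := by nlinarith
      _ = exp z ^ (aS + 1) := (pow_succ _ _).symm
      _ ≤ _ := m (by omega)
  · rw [eval_fz' V rfl hl1, hV.own l hln]

open Classical in
/-- **(SLP)** -/
theorem slp : SlpStmt := by
  intro n K K' lam gam C₁ C hn hC₁ hC hlam
  obtain ⟨a, c₀, h0⟩ := cel_mk n K K' C₁ C hC₁ hC
  obtain ⟨c, hc⟩ := exists_nat_ge C
  obtain ⟨aS, cS, hS⟩ := sS_le n (max K K') a
  obtain ⟨aB, cB, hB⟩ := cel_b n (max K K') a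
  obtain ⟨aC, cC, hCC⟩ := cel_c n (max K K') a
  obtain ⟨aD, cD, hD⟩ := cel_d n (max K K') a
  obtain ⟨N, hN⟩ : ∃ N : ℕ, N = aS + (aB + c + 2) + aC + aD := ⟨_, rfl⟩
  refine ⟨N, ?_⟩
  intro y r r2 r' r'' aa M
  obtain ⟨z₀, hz₀⟩ := exists_nat_ge (max (max (max c₀ cS) (max cB (max cC cD))) 4)
  refine ⟨z₀, ?_⟩
  intro J a₀ w₀ z i j D q κ hz hpl hO P E V hE
  have hzE : (z : ℝ) + 1 ≤ exp z := Real.add_one_le_exp _
  have hzz : (z₀ : ℝ) ≤ z := by exact_mod_cast hz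
  have hcE : max (max (max c₀ cS) (max cB (max cC cD))) 4 ≤ exp (z : ℝ) := by linarith
  obtain ⟨hA0, hc4⟩ := max_le_iff.1 hcE
  obtain ⟨hA1, hA2⟩ := max_le_iff.1 hA0
  obtain ⟨hc0, hcS⟩ := max_le_iff.1 hA1
  obtain ⟨hcB, hA3⟩ := max_le_iff.1 hA2
  obtain ⟨hcC, hcD⟩ := max_le_iff.1 hA3
  have hE1 : 1 ≤ exp (z : ℝ) := Real.one_le_exp (Nat.cast_nonneg z)
  have z0 : (0 : ℝ) ≤ z := Nat.cast_nonneg z
  have y0 : (0 : ℝ) ≤ y := Nat.cast_nonneg y
  have st := hpl.stp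
  have er := st.er
  have er2 := st.er2
  have er' := st.er'
  have er'' := st.er''
  have i1 := hpl.i1
  have mN : ∀ {b : ℕ}, b ≤ N → exp (z : ℝ) ^ b ≤ exp z ^ N := fun h => pw hE1 h
  have mY : ∀ {b : ℕ}, b ≤ N → exp (z : ℝ) ^ b / 2 ^ (y * z) ≤ exp z ^ N / 2 ^ (y * z) :=
    fun h => div_le_div_of_nonneg_right (mN h) (by positivity)
  have cel : ∀ ω, E ω → Cel n (max K K') a (exp z) (D.X ω 0) (2 ^ (i * z)) (2 ^ (y * z))
      (D.g i j) (D.g 0 j) (D.g (i - r') (j + r)) (D.g (i - r'') (j + r)) (sl gam n)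
      (fz (D.X ω 0) (P (bb D i j r ω))) (fz (D.X ω 0) (V ω)) (fr D (i - r', j + r) ω)
      (fr D (i - r'', j + r) ω) (D.X ω) := fun ω hω => by
    obtain ⟨h1, h2, h3⟩ := hE ω hω
    refine h0 lam gam y r r2 r' r'' aa M J a₀ w₀ z i j D q κ (P (bb D i j r ω)) (V ω) ω
      (sl gam n) (i - r') hlam hc0 hpl hO h1 h2 h3 (fun l hl => ⟨hl.1, hl.2.1⟩) (by omega)
      (fun l hl => ?_) (fun l hl1 hln hl => ?_) (fun u k hu1 hun hu hk => ?_)
    · have := st.s1 hl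
      rw [Nat.cast_sub (by omega)]
      linarith
    · have e1 := gam_gr st.g3 hl1 hln hl
      rw [Nat.cast_sub (by omega), e1, er, er']
      push_cast
      linarith
    · have e1 := gam_gr st.g3 hu1 hun hu
      rw [e1, er]
      push_cast
      rcases (Pool.P5.sl_iff st.g3 k).1 hk with h4 | h4
      · rw [h4.2.2]
        linarith
      · rw [h4.2.2]
        linarith
  have cel0 : ∀ ω, E ω → Cel n (max K K') a (exp z) (D.X ω 0) (2 ^ (i * z)) (2 ^ (y * z))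
      (D.g i j) (D.g 0 j) (D.g (i - r2) (j + r)) (D.g (i - r'') (j + r)) (sl0 gam n)
      (fz (D.X ω 0) (P (bb D i j r ω))) (fz (D.X ω 0) (V ω)) (fr D (i - r2, j + r) ω)
      (fr D (i - r'', j + r) ω) (D.X ω) := fun ω hω => by
    obtain ⟨h1, h2, h3⟩ := hE ω hω
    refine h0 lam gam y r r2 r' r'' aa M J a₀ w₀ z i j D q κ (P (bb D i j r ω)) (V ω) ω
      (sl0 gam n) (i - r2) hlam hc0 hpl hO h1 h2 h3 (fun l hl => ⟨hl.1, hl.2.1⟩) (by omega)
      (fun l hl => ?_) (fun l hl1 hln hl => ?_) (fun u k hu1 hun hu hk => ?_)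
    · rw [hl.2.2, zero_mul, add_zero]
      exact_mod_cast Nat.sub_le i r2
    · have e1 := gam_so st.g3 hl1 hln hl
      have e2 : (1 : ℝ) * r ≤ gam l * r := mul_le_mul_of_nonneg_right e1 (Nat.cast_nonneg r)
      rw [Nat.cast_sub (by omega)]
      have e3 : (r : ℝ) = 2 * y := by exact_mod_cast er
      have e4 : (r2 : ℝ) = y := by exact_mod_cast er2
      linarith
    · have e1 := gam_so st.g3 hu1 hun hu
      have e2 : (1 : ℝ) * r ≤ gam u * r := mul_le_mul_of_nonneg_right e1 (Nat.cast_nonneg r)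
      have e3 : (r : ℝ) = 2 * y := by exact_mod_cast er
      rw [hk.2.2, zero_mul]
      linarith
  refine ⟨fun ω hω u k => ⟨?_, ?_⟩, fun S ω hω hSA u hu k hk => ?_,
    fun ω ω' hω hω' hbb hT => ⟨fun hs u hu1 hun hSu k hk => ?_, fun hs u hu1 hun hSu => ?_⟩⟩
  · exact (hS _ _ _ _ _ _ _ _ _ _ _ _ _ _ hE1 hcS (cel0 ω hω) u k).trans (mN (by omega))
  · exact (hS _ _ _ _ _ _ _ _ _ _ _ _ _ _ hE1 hcS (cel ω hω) u k).trans (mN (by omega))
  · -- the own slopes are given by the sheet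
    have hu1 : 1 ≤ u := hu.1
    have hun : u ≤ n := hu.2.1
    have hSu : ¬ sl gam n u := fun h => absurd h.2.2 (not_lt.2 hu.2.2)
    have cl := cel ω hω
    have hgr : ∀ l, gr gam n l → ¬ sl gam n l := fun l hl h => absurd h.2.2 (not_lt.2 hl.2.2)
    obtain ⟨sN', hsN⟩ : ∃ x : ℝ, x = nat (D.g i j) (fz (D.X ω 0) (P (bb D i j r ω))) (D.X ω) u -
        ∑ k ∈ (range n).filter (sl gam n), sS n (sl gam n) (D.g i j)
          (fz (D.X ω 0) (P (bb D i j r ω))) (fz (D.X ω 0) (V ω)) u k *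
          nat (D.g i j) (fz (D.X ω 0) (P (bb D i j r ω))) (D.X ω) k := ⟨_, rfl⟩
    have key : ∀ ζ : ℕ → ℝ, (∀ l, |ζ l| ≤ 1) → ∃ v : ℝ,
        |v - (sN' + ∑ k ∈ (range n).filter (sl gam n), sS n (sl gam n) (D.g i j)
          (fz (D.X ω 0) (P (bb D i j r ω))) (fz (D.X ω 0) (V ω)) u k * ζ k)| ≤
          exp z ^ aB / 2 ^ (y * z) ∧
        |v - (nn D n i j r gam P S ω u + ∑ k ∈ (range n).filter (sl gam n), S ω u k * ζ k)| ≤
          exp z ^ c / 2 ^ (y * z) := by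
      intro ζ hζ
      obtain ⟨b, hb0, hbs, hbg⟩ := mkpt (D.g i j) (sl gam n) cl.hP cl.hA ζ
      have e1 := hB (exp z) (exp z) (D.X ω 0) _ _ _ _ _ _ _ _ _ _ _ (D.X ω) hE1 hcB le_rfl cl b
        hb0 (fun l hl1 hln hl => by
          rw [hbs l hl1 hl]
          exact (hζ l).trans (pw1 hE1 a)) (fun l hl1 hln hl => hbg l hl1 hl) u hu1 hun hSu
      have e2 := hSA 1 le_rfl b hb0 (fun k hk => by
          rw [← nat_fz' _ _ hb0 hk.1, hbs k hk.1 hk, one_mul]
          exact (hζ k).trans hE1) (fun v hv => by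
          have e3 := hbg v hv.1 (hgr v hv)
          unfold fr at e3
          rw [eval_fz' _ hb0 hv.1] at e3
          exact e3) u hu
      rw [← hsN] at e1
      refine ⟨nat (D.g i j) (fz (D.X ω 0) (P (bb D i j r ω))) b u, ?_, ?_⟩
      · have e3 : ∑ k ∈ (range n).filter (sl gam n), sS n (sl gam n) (D.g i j)
            (fz (D.X ω 0) (P (bb D i j r ω))) (fz (D.X ω 0) (V ω)) u k *
            nat (D.g i j) (fz (D.X ω 0) (P (bb D i j r ω))) b k =
            ∑ k ∈ (range n).filter (sl gam n), sS n (sl gam n) (D.g i j)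
            (fz (D.X ω 0) (P (bb D i j r ω))) (fz (D.X ω 0) (V ω)) u k * ζ k :=
          Finset.sum_congr rfl fun k hk => by
            have hk' := (Finset.mem_filter.1 hk).2
            rw [hbs k hk'.1 hk']
        rw [e3] at e1
        exact e1
      · have e3 : ∑ k ∈ (range n).filter (sl gam n), S ω u k *
            nat (D.g i j) (P (bb D i j r ω)) b k =
            ∑ k ∈ (range n).filter (sl gam n), S ω u k * ζ k :=
          Finset.sum_congr rfl fun k hk => by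
            have hk' := (Finset.mem_filter.1 hk).2
            rw [← nat_fz' _ _ hb0 hk'.1, hbs k hk'.1 hk']
        rw [e3, ← nat_fz' _ _ hb0 hu1, mul_one] at e2
        exact e2.trans (div_le_div_of_nonneg_right (exp_pow z hc) (by positivity))
    have f0 : 0 ≤ exp (z : ℝ) ^ (aB + c) / 2 ^ (y * z) := by positivity
    have f1 : exp (z : ℝ) ^ aB / 2 ^ (y * z) ≤ exp z ^ (aB + c) / 2 ^ (y * z) :=
      div_le_div_of_nonneg_right (pw hE1 (by omega)) (by positivity)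
    have f2 : exp (z : ℝ) ^ c / 2 ^ (y * z) ≤ exp z ^ (aB + c) / 2 ^ (y * z) :=
      div_le_div_of_nonneg_right (pw hE1 (by omega)) (by positivity)
    have f3 : 4 * (exp (z : ℝ) ^ (aB + c) / 2 ^ (y * z)) ≤ exp z ^ (aB + c + 2) / 2 ^ (y * z) := by
      rw [← mul_div_assoc]
      refine div_le_div_of_nonneg_right ?_ (by positivity)
      rw [pow_add _ (aB + c) 2, mul_comm]
      refine mul_le_mul_of_nonneg_left ?_ (by positivity)
      nlinarith
    obtain ⟨v, h2, h3⟩ := key (fun _ => 0) (fun l => by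
      rw [abs_zero]
      exact zero_le_one)
    simp only [mul_zero, Finset.sum_const_zero, add_zero] at h2 h3
    obtain ⟨v', h5, h6⟩ := key (fun l => if l = k then 1 else 0) (fun l => by
      split_ifs
      · rw [abs_one]
      · rw [abs_zero]
        exact zero_le_one)
    rw [sum_sing cl.hSl hk (x := fun l => if l = k then (1 : ℝ) else 0) (fun _ _ => rfl)] at h5 h6
    refine le_trans ?_ (f3.trans (mY (by omega)))
    have g2 := h2.trans f1
    have g3 := h3.trans f2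
    have g5 := h5.trans f1
    have g6 := h6.trans f2
    rw [abs_le] at g2 g3 g5 g6 ⊢
    constructor <;> linarith
  · have ht : D.X ω' 0 = D.X ω 0 := by rw [hO.X_zero, hO.X_zero, hT]
    have hA : fr D (i - r'', j + r) ω' = fr D (i - r'', j + r) ω := by
      unfold fr NDat2.Ψ
      rw [ht, hs]
    have c1 := cel0 ω hω
    have c2 := cel0 ω' hω'
    rw [hA, ← hbb, ht] at c2
    have e1 := hD _ _ _ _ _ _ _ _ _ _ _ _ _ _ _ _ _ hE1 hcD c1 c2 u hu1 hun hSu k hk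
    rw [← hbb, ht]
    exact e1.trans (mY (by omega))
  · have ht : D.X ω' 0 = D.X ω 0 := by rw [hO.X_zero, hO.X_zero, hT]
    have hA : fr D (i - r2, j + r) ω' = fr D (i - r2, j + r) ω := by
      unfold fr NDat2.Ψ
      rw [ht, hs]
    have c1 := cel0 ω hω
    have c2 := cel0 ω' hω'
    rw [hA, ← hbb, ht] at c2
    have e1 := hCC _ _ _ _ _ _ _ _ _ _ _ _ _ _ _ _ _ hE1 hcC c1 c2 u hu1 hun hSu
    rw [← hbb, ht]
    exact e1.1.trans (mY (by omega))

end Pool.P5L
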